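import Mathlib
import Pool.Agent.H870R3.TMUniv
import Pool.Agent.H870R3.Shear
import Pool.Agent.H870R3.Flat

set_option autoImplicit false

open Turing

namespace Pool.Agent.Results.MP_e7e3bc_an.FlatTorus

open Pool.Agent.H870R3

/-- The rational number with numerator `a.1` and denominator `a.2`. -/
noncomputable def rat (a : ℕ × ℕ) : ℝ := (a.1 : ℝ) / (a.2 : ℝ)

/-- Triples of rational numbers. -/
abbrev Rat3 : Type := (ℕ × ℕ) × (ℕ × ℕ) × (ℕ × ℕ)

/-- The point of the torus with the rational coordinates `c`. -/
noncomputable def point (c : Rat3) : E3 := !₂[rat c.1, rat c.2.1, rat c.2.2]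

/-- The open box with the rational corners `c` and `d`. -/
def box (c d : Rat3) : Set E3 :=
  {y | (rat c.1 < y 0 ∧ y 0 < rat d.1) ∧ (rat c.2.1 < y 1 ∧ y 1 < rat d.2.1) ∧
    (rat c.2.2 < y 2 ∧ y 2 < rat d.2.2)}

/-- The vector field `X` on the flat torus `ℝ³/ℤ³` is Turing complete: for some universal Turing
machine `U` there are computable maps assigning to every initial configuration `c` of `U` a point
`p c` with rational coordinates and an open box `V c` with rational corners such that `U` halts on
`c` if and only if the forward orbit of `X` through `p c` meets `V c`. -/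
def TuringComplete (X : E3 → E3) : Prop :=
  ∃ U : TM, U.IsUniversal ∧
    ∃ (p : List (Fin (U.k + 1)) × List (Fin (U.k + 1)) → Rat3)
      (V : List (Fin (U.k + 1)) × List (Fin (U.k + 1)) → Rat3 × Rat3),
      Computable p ∧ Computable V ∧
        ∀ c, U.Halts (U.init c) ↔ OrbitMeets X (point (p c)) (box (V c).1 (V c).2)

/-- The vector field `(0, 1, ∑ a_k 2^(-k²) win(4^k sin²(π x₀)))`. -/
noncomputable def shearField (a : ℕ → ℝ) : E3 → E3 := fun x => ee 1 + FF a (x 0) • ee 2

/-- has `U` reached the halting state at time `t` when started in the configuration number `k`? -/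
def hal (U : TM) (k t : ℕ) : Bool :=
  ((Encodable.decode (α := List (Fin (U.k + 1)) × List (Fin (U.k + 1))) k).map
    (fun c => hb (U.code, (0, c.1.map Fin.val, c.2.map Fin.val)) t)).getD false

lemma primrec_val (n : ℕ) : Primrec (fun l : List (Fin n) => l.map Fin.val) :=
  Primrec.list_map Primrec.id (Primrec.fin_val.comp Primrec.snd)

lemma hal_computable (U : TM) : Computable₂ (hal U) := by
  refine Primrec.to_comp ?_
  unfold hal
  refine Primrec.option_getD.comp (Primrec.option_map (Primrec.decode.comp Primrec.fst) ?_)
    (Primrec.const false)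
  refine primrec_hb.comp (Primrec.pair (Primrec.const _) (Primrec.pair (Primrec.const 0)
    (Primrec.pair ?_ ?_))) (Primrec.snd.comp Primrec.fst)
  · exact (primrec_val _).comp (Primrec.fst.comp Primrec.snd)
  · exact (primrec_val _).comp (Primrec.snd.comp Primrec.snd)

lemma hal_encode (U : TM) (c : List (Fin (U.k + 1)) × List (Fin (U.k + 1))) (t : ℕ) :
    hal U (Encodable.encode c) t = hb (U.code, (0, c.1.map Fin.val, c.2.map Fin.val)) t := by
  simp [hal]

/-- **There is a Turing complete stationary Euler flow on the flat torus `𝕋³ = ℝ³/ℤ³`**, of the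
explicit form `X = (0, 1, ∑ a_k 2^(-k²) win(4^k sin²(π x₀)))` with a computable sequence `a` of
real numbers. -/
theorem result : ∃ a : ℕ → ℝ, ComputableReals a ∧ IsSteadyEuler (shearField a) ∧
    TuringComplete (shearField a) := by
  obtain ⟨U, hU⟩ := exists_universal
  set a : ℕ → ℝ := fun k => enc (hal U k) with ha
  have ha1 : ∀ k, |a k| ≤ 1 := fun k => by
    rw [abs_of_nonneg (enc_nonneg _)]; exact enc_le_one _
  have hX : shearField a = shearF (FF a) := rfl
  refine ⟨a, enc_computable _ (hal_computable U), ?_, ?_⟩
  · rw [hX]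
    exact shear_steady (FF a) (FF_contDiff a ha1) (FF_periodic a)
  · refine ⟨U, hU, fun c => ((1, 2 ^ (Encodable.encode c + 1)), (0, 1), (0, 1)),
      fun _ => (((0, 1), (0, 1), (1, 4)), ((2, 1), (2, 1), (3, 4))), ?_, Computable.const _, ?_⟩
    · refine Computable.pair (Computable.pair (Computable.const 1) ?_) (Computable.const _)
      have h1 : Primrec (fun n : ℕ => 2 ^ (n + 1)) := by
        have : Primrec (fun n : ℕ => n.rec (motive := fun _ => ℕ) 2 (fun _ r => 2 * r)) := by
          refine (Primrec.nat_rec₁ 2 (f := fun _ r => 2 * r) ?_)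
          exact Primrec.nat_mul.comp (Primrec.const 2) Primrec.snd
        refine this.of_eq fun n => ?_
        induction n with
        | zero => rfl
        | succ n ih =>
          rw [pow_succ, ← ih, mul_comm]
      exact (h1.comp Primrec.encode).to_comp
    · intro c
      rw [hX]
      set k := Encodable.encode c with hk
      have e0 : (point ((1, 2 ^ (k + 1)), (0, 1), (0, 1))) 0 = 1 / 2 ^ (k + 1) := by
        simp [point, rat]
      have e1 : (point ((1, 2 ^ (k + 1)), (0, 1), (0, 1))) 1 = 0 := by
        simp [point, rat]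
      have e2 : (point ((1, 2 ^ (k + 1)), (0, 1), (0, 1))) 2 = 0 := by
        simp [point, rat]
      have hbox : box ((0, 1), (0, 1), (1, 4)) ((2, 1), (2, 1), (3, 4)) = box3 := by
        ext y
        simp [box, box3, rat]
      obtain ⟨C, hC, hval⟩ := FF_val a k
      have hnn : 0 ≤ FF a (1 / 2 ^ (k + 1)) := by
        rw [hval]; exact mul_nonneg (enc_nonneg _) hC.le
      show _ ↔ OrbitMeets (shearF (FF a)) (point ((1, 2 ^ (k + 1)), (0, 1), (0, 1)))
        (box ((0, 1), (0, 1), (1, 4)) ((2, 1), (2, 1), (3, 4)))
      rw [hbox, shear_meets (FF a) _ ?_ e1 e2 (by rw [e0]; exact hnn), e0, hval]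
      · have h3 : 0 < a k * C ↔ 0 < a k := by
          constructor
          · intro h; exact (mul_pos_iff_of_pos_right hC).1 h
          · intro h; exact mul_pos h hC
        rw [h3, ha]
        show _ ↔ 0 < enc (hal U k)
        rw [enc_pos_iff]
        unfold TM.init
        rw [halts_iff]
        refine exists_congr fun t => ?_
        rw [hk, hal_encode]
        simp [hb]
      · rw [e0]
        constructor
        · positivity
        · rw [div_lt_iff₀ (by positivity)]
          have : (1 : ℝ) ≤ 2 ^ (k + 1) := one_le_pow₀ (by norm_num)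
          linarith

end Pool.Agent.Results.MP_e7e3bc_an.FlatTorus
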